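import Pool.Agent.H.MP_aca74d_lc.G

namespace Pool.Agent.Results.MP_aca74d_lc.Complete

open Pool.Agent.Lib.CX Pool.Agent.Lib.ER Pool.Agent.H.MP_aca74d_lc

/-- the graph has a straight-line drawing with angular resolution at least `π / 3` -/
def AR (a : Gr) : Prop :=
  ∃ p : Fin a.n → EuclideanSpace ℝ (Fin 2), Function.Injective p ∧
    ∀ v u w, a.G.Adj v u → a.G.Adj v w → u ≠ w → Real.pi / 3 ≤ EuclideanGeometry.angle (p u) (p v) (p w)

theorem result : Red AR ETR ∧ ∀ (α : Type) [Enc α] (A : α → Prop), Red A ETR → Red A AR := by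
  have e : AR = ARc := funext fun a => propext (ar_iff a)
  rw [e]
  obtain ⟨g, hg, h⟩ := hard
  exact ⟨memb, fun α _ A ⟨f, hf, h'⟩ => ⟨fun a => g (f a), hg.comp hf, fun a => (h' a).trans (h _)⟩⟩

end Pool.Agent.Results.MP_aca74d_lc.Complete
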